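import Pool.Agent.H953R3.Q2.Fin2

/-!
# Twisted links which the Vassiliev invariants of order two do not separate from the unknot

Diagrams: `Pool.Agent.H891R2.Jones.Diagram` (`Crossing`, `Diagram`: oriented link diagrams with
marked points; `Diagram.IsClosed`) and `Pool.Agent.H891R2.MT.Defs` (`Ribbon k`: a ribbon graph with
`k` edges, given by the rotation system on its `2 k` darts; `Ribbon.verts`, `Ribbon.comps`;
`Ribbon.Planar`: a connected plane graph; `Ribbon.link n`: the unoriented link diagram which is the
boundary of the surface made of one disc for every vertex and, for every edge `e`, a band with `n e`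
half twists, that is, a row of `|n e|` crossings; `Orients D U`: `D` is the unoriented diagram `U`
with directions).

`Pool.Agent.H953R3.Q2.Fin2`: `Balanced M F A`: for every edge `e ∈ F` the set `A e` contains either
no even numbers or at least `M`, and either no odd numbers or at least `M`.

Vassiliev invariants: `Pool.Agent.H832R3.VJ.Defs` (`Dia`: an oriented diagram with the finite set of
its marked points; `IsVassiliev n v`: `v` is an invariant of oriented links of order at most `n`;
`Separated d X Y`: some integer valued Vassiliev invariant of order at most `d` has different values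
on `X` and `Y`; the unknot is the diagram without crossings).
-/

set_option autoImplicit false

namespace Pool.Agent.Results.MP_5f6b43_gt.OrderTwoContact

open Finset LaurentPolynomial Pool.Agent.H891R2.Jones Pool.Agent.H891R2.MT Pool.Agent.H953R3.Q2
  Pool.Agent.H832R3.VJ

open Classical in
/-- Let `Γ` be a connected plane graph with `k` edges which is not a tree (`verts ≤ k`), and let
`D(n)`, `n ∈ ℤ^k`, be the link diagram with `|n e|` crossings on the edge `e`. Let `X` be any
oriented diagram, for instance the unknot.

* Let `F` be a set of edges such that the other edges form a forest, and let `A e ⊂ ℤ` be finite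
  sets such that, for `e ∈ F`, the even (odd) elements of `A e` are none or at least `M`. Among the
  links `D(n)`, `n ∈ ∏ A e`, the proportion of those which, for some directions, are not separated
  from `X` by the Vassiliev invariants of order at most `2` is at most `2 / M`.
* At most `(2 / N) (2 N + 1) ^ k` of the `(2 N + 1) ^ k` diagrams `D(n)` with `|n e| ≤ N` for all `e`
  are, for some directions, not separated from `X` by the Vassiliev invariants of order at most `2`.

Both bounds do not depend on the graph and on the number `k` of twist regions. -/
theorem result (k : ℕ) (Γ : Ribbon k) (hΓ : Γ.Planar) (hk : Γ.verts ≤ k) (X : Dia) :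
    (∀ (F : Finset (Fin k)), Fᶜ.card + Γ.comps Fᶜ = Γ.verts →
      ∀ (M : ℕ) (A : Fin k → Finset ℤ), Balanced M F A →
      M * #{n ∈ Fintype.piFinset A | ∃ D : Diagram (Ribbon.Pt n), Orients D (Γ.link n) ∧
          D.IsClosed ∧ ¬ Separated 2 ⟨_, inferInstance, D⟩ X} ≤ 2 * ∏ e, (A e).card) ∧
    ∀ (N : ℕ), N * {n : Fin k → ℤ | (∀ e, |n e| ≤ N) ∧ ∃ D : Diagram (Ribbon.Pt n),
        Orients D (Γ.link n) ∧ D.IsClosed ∧
        ¬ Separated 2 ⟨_, inferInstance, D⟩ X}.ncard ≤ 2 * (2 * N + 1) ^ k :=
  ⟨fun F hF M A hA => count_sep Γ hΓ hk F hF X M A hA,
    fun N => count_cube Γ _ N fun A hA => count_sep Γ hΓ hk Finset.univ (empty_forest Γ) X N A hA⟩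

end Pool.Agent.Results.MP_5f6b43_gt.OrderTwoContact
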