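import Pool.Agent.X130.TR.C

/-!
# Vassiliev invariants of an order independent of the exponents detect random twist regions

Diagrams (starting library `Pool.Agent.H891R2.Jones.Diagram`): `Diagram P` (oriented link diagrams with
marked points `P`, planar or not), `Diagram.IsClosed` (its pieces fit together to closed oriented curves),
`Outer m` (the part of an oriented diagram outside a box through which `m` strands run, each of them in one
of the two directions: `O.up`), `Outer.close` (the box is filled with vertical strands).
`Pool.Agent.W639.RB.Defs`: `Letter m` (the letters `σ_i^{±1}` of the braid group on `m` strands).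
`Pool.Agent.Y463.SK.Defs`: `dia O w` (the diagram with the word `w` in the box of `O`), `permW w` (the
permutation of the strands of a word).  `Pool.Agent.Y463.UT.Defs`: `Law` (probability distributions with
finite support on `ℤ`), `prob μ E` (the probability of `E` for independent integers with the distributions
`μ_j`), `tw i x` (the word `σ_{i_1}^{x_1} ⋯ σ_{i_k}^{x_k}`), `turns i μ ε` (the number of `j` such that
`|i_j - i_{j+1}| = 1` and no value of `x_j`, `x_{j+1}` has probability larger than `ε`).

Vassiliev invariants (starting library `Pool.Agent.H832R3.VJ.Defs`): `Dia` (an oriented diagram with the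
finite set of its marked points), `Separated d X Y` (some integer valued Vassiliev invariant of oriented
links of order at most `d` has different values on `X` and `Y`), `unknot`.

New definitions (`Pool.Agent.X130.TR`): `diaW O w` is `dia O w` as an element of `Dia`; `nb i` is the number
of `j` with `|i_j - i_{j+1}| = 1`; `ordB O k = 4^k (2 c + 4 p + (4 m + 2) k + 1)`, where `c` and `p` are the
numbers of crossings and of marked points of `O`.

Proof.  By the skein relation `(A + A⁻³) σ^x = A^x (σ + A⁻³) + (-A⁻³)^x (A - σ)` the bracket of the diagram with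
`k` twist regions becomes, after multiplication with `(A + A⁻³)^k`, a Laurent polynomial with at most
`ordB O k` terms, for all exponents; a Laurent polynomial with at most `d + 1` terms does not vanish to the
order `d + 1` at `A = 1`, and its derivatives at `A = 1` of order at most `d` are Vassiliev invariants of
order at most `d`.  The probability that the normalised bracket is trivial is bounded by the library theorem
`Pool.Agent.Y463.UT.final`.
-/

set_option autoImplicit false

namespace Pool.Agent.Results.MP_5f6b43_gt.RandomTwistRegions

open Finset LaurentPolynomial Pool.Agent.H891R2.Jones Pool.Agent.W639.RB Pool.Agent.Y463.SK 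
  Pool.Agent.Y463.UT Pool.Agent.H832R3.VJ Pool.Agent.X130.TR

theorem nsep {m : ℕ} (hm : 0 < m) (O : Outer m) {k : ℕ} (i : Fin k → Fin (m - 1)) (x : Fin k → ℤ) 
    (h : ¬ Separated (ordB O k + 2 ^ k) (diaW O (tw i x)) unknot) : 
    (dia O (tw i x)).fPoly = unknot.D.fPoly := by
  by_contra hne
  apply h
  refine sep_tw hm O i x unknot _ ?_ hne
  have := nt_unknot k
  omega

open Classical in
/-- Let `m ≥ 3`.  `O` denotes outsides of a box with `m` strands; into the box we draw the words
`σ_{i_1}^{x_1} ⋯ σ_{i_k}^{x_k}`.

* If `O.close` is closed and the word respects the directions of the strands, for instance if all `x_j` are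
  even, then the diagrams are closed, that is, diagrams of links (with even `x_j` all of them have the same
  connections as `O.close`: they are diagrams of knots if `O.close` is one).
* There is a constant `C`, depending on `m` only, such that for all `O`, all places `i_1, …, i_k`, all
  independent random exponents `x_1, …, x_k ∈ ℤ` (finite supports, arbitrary distributions), all `ε > 0` and
  all `u` such that for at least `u (m! + 1) (m! + 2)` values of `j` the places `i_j` and `i_{j+1}` are
  neighbouring and no value of `x_j` or `x_{j+1}` has probability larger than `ε`: with probability at least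
  `1 - C (8ε)^{u/2}` the diagram is separated from the unknot by Vassiliev invariants of order at most
  `ordB O k + 2^k`, a number which does not depend on the exponents and their distributions.
* In particular, for all finite sets `A_1, …, A_k ⊂ ℤ` (for instance of even numbers) with at least `M ≥ 1`
  elements, if `u (m! + 1) (m! + 2)` is at most the number of `j` with neighbouring `i_j`, `i_{j+1}`, then at
  most `C (8/M)^{u/2} |A_1| ⋯ |A_k|` of the `x ∈ A_1 × ⋯ × A_k` give a diagram which is not separated from the
  unknot by Vassiliev invariants of order at most `ordB O k + 2^k`. -/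
theorem result (m : ℕ) (hm : 3 ≤ m) : 
    (∀ (O : Outer m), O.close.IsClosed → ∀ w : List (Letter m), (∀ j, O.up (permW w j) = O.up j) → 
      (dia O w).IsClosed) ∧ 
    (∀ (k : ℕ) (i : Fin k → Fin (m - 1)) (x : Fin k → ℤ), (∀ j, Even (x j)) → permW (tw i x) = 1) ∧ 
    ∃ C : ℝ, 0 ≤ C ∧ 
      (∀ (O : Outer m) (k : ℕ) (i : Fin k → Fin (m - 1)) (μ : Fin k → Law) (ε : ℝ), 0 < ε → 
        ∀ u : ℕ, u * ((m.factorial + 1) * (m.factorial + 2)) ≤ turns i μ ε → 
          prob μ (fun x => ¬ Separated (ordB O k + 2 ^ k) (diaW O (tw i x)) unknot) ≤ 
            C * (8 * ε) ^ ((u : ℝ) / 2)) ∧ 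
      (∀ (O : Outer m) (k : ℕ) (i : Fin k → Fin (m - 1)) (A : Fin k → Finset ℤ) (M : ℕ), 0 < M → 
        (∀ j, M ≤ (A j).card) → 
        ∀ u : ℕ, u * ((m.factorial + 1) * (m.factorial + 2)) ≤ nb i → 
          (((Fintype.piFinset A).filter (fun x => 
            ¬ Separated (ordB O k + 2 ^ k) (diaW O (tw i x)) unknot)).card : ℝ) ≤ 
              C * (8 / M) ^ ((u : ℝ) / 2) * ∏ j, ((A j).card : ℝ)) := by
  refine ⟨fun O hO w hw => Pool.Agent.Y463.RW.dia_closed O hO w hw, fun k i x hx => permW_tw i x hx, ?_⟩
  obtain ⟨C, hC, h⟩ := LO hm
  have key : ∀ (O : Outer m) (k : ℕ) (i : Fin k → Fin (m - 1)) (μ : Fin k → Law) (ε : ℝ), 0 < ε → 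
        ∀ u : ℕ, u * ((m.factorial + 1) * (m.factorial + 2)) ≤ turns i μ ε → 
          prob μ (fun x => ¬ Separated (ordB O k + 2 ^ k) (diaW O (tw i x)) unknot) ≤ 
            C * (8 * ε) ^ ((u : ℝ) / 2) := by
    intro O k i μ ε hε u hu
    exact (prob_mono μ _ _ (fun x _ hx => nsep (by omega) O i x hx)).trans 
      (h O unknot.D.fPoly k i μ ε hε u hu)
  refine ⟨C, hC, key, ?_⟩
  intro O k i A M hM hA u hu
  have hne : ∀ j, (A j).Nonempty := fun j => Finset.card_pos.1 (lt_of_lt_of_le hM (hA j))
  have h0 := prob_unif A hne (fun x => ¬ Separated (ordB O k + 2 ^ k) (diaW O (tw i x)) unknot)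
  have h2 := key O k i (fun j => unif (A j) (hne j)) (1 / M) (by positivity) u 
    (hu.trans (turns_unif i A hne M hM hA))
  have h3 : (8 : ℝ) * (1 / M) = 8 / M := by ring
  rw [h3] at h2
  have h4 := mul_le_mul_of_nonneg_right h2 
    (Finset.prod_nonneg fun j _ => by positivity : 0 ≤ ∏ j, ((A j).card : ℝ))
  rw [h0] at h4
  refine le_trans (le_of_eq ?_) h4
  congr!

end Pool.Agent.Results.MP_5f6b43_gt.RandomTwistRegions
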