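import Pool.Agent.X130.SD.H

/-!
# Vassiliev invariants detect knots with one strongly dominated state

Diagrams: `Pool.Agent.H891R2.Jones.Diagram` (`Diagram`: oriented link diagrams with marked points;
`Diagram.IsClosed`: the directions fit together) and `Pool.Agent.H891R2.MT.Defs` (`Ribbon k`: a ribbon
graph with `k` edges; `Ribbon.Planar`: connected and planar; `Γ.link (sg R)`: the link diagram with Tait
graph `Γ` and one crossing at every edge, of the kind `-1` for the edges in `R` and `1` for the others;
every connected link diagram with at least one crossing is of this form; `Orients D U`: `D` is the
unoriented diagram `U` with directions).  `Pool.Agent.TH561.PK.IsKnot D`: all marked points of `D` are on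
one curve.

States: `Pool.Agent.H891R2.DS.Defs`, `Pool.Agent.H891R2.DS.Final` (a state is a set `S` of edges, the
bands of `Γ` which are kept in the smoothing; `Asm R S`: the crossings which have the `A`-smoothing in
the state `S`; `stateGraph Γ S`: its vertices are the circles of `S`, and every crossing is an edge
between the circles which it touches; `EvenSet G X`: `X` is a union of edge-disjoint cycles of `G`;
`Nugatory Γ e`: the edge `e` is a bridge of the Tait graph or of its dual).
`Pool.Agent.X130.SD.SDom G M`: every nonempty even subgraph `X` of `G` has at least two more edges
outside `M` than in `M`, and at least three more if it contains an edge of `M`.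

Vassiliev invariants: `Pool.Agent.H832R3.VJ.Defs` (`Dia`: an oriented diagram with the finite set of
its marked points; `Move`: relabelling, subdivision of strands and the Reidemeister moves; `sing`:
extension to diagrams with double points by the Vassiliev skein relation; `IsVassiliev n v`: `v` is
an invariant of oriented links of order at most `n`; `Separated d X Y`: some integer valued
Vassiliev invariant of order at most `d` has different values on `X` and `Y`; `unknot`).
-/

set_option autoImplicit false

namespace Pool.Agent.Results.MP_5f6b43_gt.SemiDominatedStates

open Finset Pool.Agent.H891R2.Jones Pool.Agent.H891R2.MT Pool.Agent.H891R2.DS Pool.Agent.TH561.PK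
open Pool.Agent.H832R3.VJ Pool.Agent.X130.SD

/-- Let `D` be a connected knot diagram with `k > 0` crossings, not all of them nugatory, which has a
state such that every cycle of its state graph has at least two more `B`-smoothed than `A`-smoothed
crossings, and at least three more if it contains an `A`-smoothed crossing (or a state with this property
with `A` and `B` exchanged).  Then some Vassiliev invariant of order at most `k + 1` has different values
on `D` and the unknot. -/
theorem result {k : ℕ} (Γ : Ribbon k) (hΓ : Γ.Planar) (hk : 0 < k) (R S : Finset (Fin k))
    (hS : SDom (stateGraph Γ S) (Asm R S) ∨ SDom (stateGraph Γ S) (Asm R S)ᶜ)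
    (D : Diagram (Ribbon.Pt (sg R))) (hD : Orients D (Γ.link (sg R))) (hc : D.IsClosed)
    (hK : IsKnot D) (h : ∃ e, ¬ Nugatory Γ e) :
    Separated (k + 1) ⟨_, inferInstance, D⟩ unknot := by
  apply detect Γ hΓ hk R D hD
  rcases hS with hS | hS
  · exact (nontrivial_low Γ hΓ hk R S hS D hD hc hK).2 h
  · exact (nontrivial_high Γ hΓ hk R S hS D hD hc hK).2 h

end Pool.Agent.Results.MP_5f6b43_gt.SemiDominatedStates
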