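import Pool.Agent.X130.TR.D

/-!
# Random elements of arbitrary finitely generated groups of braids and Vassiliev invariants: a zero-one law

Diagrams (starting library `Pool.Agent.H891R2.Jones.Diagram`): `Diagram P` (oriented link diagrams with
marked points `P`, planar or not), `Diagram.IsClosed` (its pieces fit together to closed oriented curves),
`Diagram.fPoly` (the normalised bracket `(-A^{-3})^{w(D)} ⟨D⟩`), `Outer m` (the part of an oriented diagram
outside a box through which `m` strands run, each of them in one of the two directions: `O.up`),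
`Outer.close` (the box is filled with vertical strands).  `Pool.Agent.W639.RB.Defs`: `Letter m` (the letters
`σ_i^{±1}` of the braid group on `m` strands).  `Pool.Agent.Y463.SK.Defs` and `Pool.Agent.Y463.RW.Defs`:
`permW w` (the permutation of the strands of a word), `dia O w` (the diagram with the word `w` in the box of
`O`), `prodW w u` (the product `w_{i_1}^{±1} ⋯ w_{i_n}^{±1}` given by the sequence `u` of `n` pairs `(i, ±)`).

Vassiliev invariants (starting library `Pool.Agent.H832R3.VJ.Defs`): `Dia` (an oriented diagram with the
finite set of its marked points), `Separated d X Y` (some integer valued Vassiliev invariant of oriented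
links of order at most `d` has different values on `X` and `Y`), `unknot`.  `Pool.Agent.X130.TR`: `diaW O w`
(`dia O w` as an element of `Dia`), `SeparatedMod N d X Y` (some integer valued Vassiliev invariant of order
at most `d` has values on `X` and `Y` which are not congruent modulo `N`).

The bound for the normalised brackets is the library theorem `Pool.Agent.Y463.RW.zero_one`.
-/

set_option autoImplicit false

namespace Pool.Agent.Results.MP_5f6b43_gt.SubgroupZeroOneLaw

open Finset LaurentPolynomial Pool.Agent.H891R2.Jones Pool.Agent.W639.RB Pool.Agent.Y463.SK 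
  Pool.Agent.Y463.RW Pool.Agent.H832R3.VJ Pool.Agent.X130.TR
open Pool.Agent.W705.JR (draw_size size sep_mono sep_of_ne)

theorem length_prodW {m s n : ℕ} (w : Fin s → List (Letter m)) (L : ℕ) (hL : ∀ i, (w i).length ≤ L) 
    (u : Fin n → Fin s × Bool) : (prodW w u).length ≤ L * n := by
  unfold prodW
  rw [List.length_flatten, List.map_ofFn, List.sum_ofFn]
  refine (Finset.sum_le_card_nsmul _ _ L fun i _ => ?_).trans (le_of_eq (by simp [mul_comm]))
  simp only [Function.comp_apply]
  split_ifs
  · exact hL _
  · rw [invW, List.length_reverse, List.length_map]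
    exact hL _

theorem nsep {m : ℕ} (O : Outer m) (l : List (Letter m)) (d : ℕ)
    (hd : 2 * (O.crossings.length + 2 * Nat.card O.P + (2 * m + 1) * l.length + 2) < d) 
    (h : ¬ Separated d (diaW O l) unknot) : (dia O l).fPoly = 1 := by
  have h1 : (diaW O l).D.fPoly = unknot.D.fPoly := by
    by_contra hne
    apply h
    refine sep_mono ?_ (sep_of_ne (diaW O l) unknot hne)
    obtain ⟨h1, h2⟩ := draw_size (m := m) (toN l) O (toN_lt l)
    have h7 : (toN l).length = l.length := by simp [toN]
    rw [h7] at h1 h2
    have h3 : size (diaW O l) = (draw O (toN l)).crossings.length + 2 * Nat.card (draw O (toN l)).P := rfl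
    have h4 : size unknot = 2 := by
      unfold size unknot
      simp
    rw [h3, h1, h2, h4]
    have : 2 * (m * l.length) + l.length = (2 * m + 1) * l.length := by ring
    omega
  rw [fPoly_unknot] at h1
  exact h1

open Classical in
/-- **Zero-one law.**  For all `m, s ≥ 1` there is a constant `C`, depending only on `m` and `s`, with the
following property.  Let `O` be an outside with `c` crossings and `p` marked points of a box through which
`m` strands run, let `w_1, …, w_s` be arbitrary braid words on `m` strands of length at most `L`, `v` a braid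
word and `τ` a permutation of the strands.  Consider the products `u = w_{i_1}^{±1} ⋯ w_{i_n}^{±1}` with
permutation `τ`, and the diagrams `D(u)` obtained by drawing `u v` in the box.

* If `O.close` is closed and `τ` times the permutation of `v` preserves the directions of the strands, then
  all `D(u)` are closed (diagrams of links).
* Either all `D(u)`, for the products `u` of all lengths with permutation `τ`, have the normalised bracket
  `1`, or for all `n ≥ 1` and `d > 2 (c + 2 p + (2m+1) (L n + |v|) + 2)` at most `C n^{-c'} (2 s)^n` of the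
  `(2 s)^n` products of length `n` have the permutation `τ` and give a diagram which is not separated from
  the unknot by Vassiliev invariants of order at most `d`, where `c' = 1 / (3 · 2^(m! 2^m + 2))`.
* Hence if one `D(u)` is separated from the unknot by the coefficients of the normalised bracket at
  `A = 1 + h` (integer valued Vassiliev invariants), then the second case holds. -/
theorem result (m s : ℕ) (hm : 0 < m) (hs : 0 < s) : ∃ C : ℝ, 0 < C ∧ 
    ∀ (O : Outer m) (w : Fin s → List (Letter m)) (v : List (Letter m)) (τ : Equiv.Perm (Fin m)) (L : ℕ), 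
      (∀ i, (w i).length ≤ L) → 
      (O.close.IsClosed → (∀ j, O.up ((τ * permW v) j) = O.up j) → 
        ∀ (n : ℕ) (u : Fin n → Fin s × Bool), permW (prodW w u) = τ → 
          (dia O (prodW w u ++ v)).IsClosed) ∧ 
      ((∀ (n : ℕ) (u : Fin n → Fin s × Bool), permW (prodW w u) = τ → 
          (dia O (prodW w u ++ v)).fPoly = 1) ∨ 
        ∀ n : ℕ, 0 < n → ∀ d : ℕ, 
          2 * (O.crossings.length + 2 * Nat.card O.P + (2 * m + 1) * (L * n + v.length) + 2) < d → 
          ((univ.filter (fun u : Fin n → Fin s × Bool => 
            permW (prodW w u) = τ ∧ ¬ Separated d (diaW O (prodW w u ++ v)) unknot)).card : ℝ) ≤ 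
              C * (n : ℝ) ^ (-(1 / (3 * 2 ^ (m.factorial * 2 ^ m + 2))) : ℝ) * (2 * s : ℝ) ^ n) ∧ 
      ((∃ (k : ℕ) (u : Fin k → Fin s × Bool) (j : ℕ), permW (prodW w u) = τ ∧ 
          bmom j (dia O (prodW w u ++ v)).fPoly ≠ bmom j 1) → 
        ∀ n : ℕ, 0 < n → ∀ d : ℕ, 
          2 * (O.crossings.length + 2 * Nat.card O.P + (2 * m + 1) * (L * n + v.length) + 2) < d → 
          ((univ.filter (fun u : Fin n → Fin s × Bool => 
            permW (prodW w u) = τ ∧ ¬ Separated d (diaW O (prodW w u ++ v)) unknot)).card : ℝ) ≤ 
              C * (n : ℝ) ^ (-(1 / (3 * 2 ^ (m.factorial * 2 ^ m + 2))) : ℝ) * (2 * s : ℝ) ^ n) := by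
  refine ⟨Cst (2 * s : ℝ) (dimB m + 1), lt_of_lt_of_le one_pos (Cst_ge _ _), 
    fun O w v τ L hL => ?_⟩
  have key : (∀ (n : ℕ) (u : Fin n → Fin s × Bool), permW (prodW w u) = τ → 
          (dia O (prodW w u ++ v)).fPoly = 1) ∨ 
        ∀ n : ℕ, 0 < n → ∀ d : ℕ, 
          2 * (O.crossings.length + 2 * Nat.card O.P + (2 * m + 1) * (L * n + v.length) + 2) < d → 
          ((univ.filter (fun u : Fin n → Fin s × Bool => 
            permW (prodW w u) = τ ∧ ¬ Separated d (diaW O (prodW w u ++ v)) unknot)).card : ℝ) ≤ 
              Cst (2 * s : ℝ) (dimB m + 1) * (n : ℝ) ^ (-(1 / (3 * 2 ^ (m.factorial * 2 ^ m + 2))) : ℝ) * 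
                (2 * s : ℝ) ^ n := by
    rcases zero_one hm hs O w v 1 τ with h | h
    · exact Or.inl h
    · refine Or.inr fun n hn d hd => ?_
      refine le_trans ?_ (h n hn)
      norm_cast
      refine Finset.card_le_card fun u hu => ?_
      rw [Finset.mem_filter] at hu ⊢
      refine ⟨hu.1, hu.2.1, nsep O _ d ?_ hu.2.2⟩
      have h1 := length_prodW w L hL u
      rw [List.length_append]
      have h2 : (2 * m + 1) * ((prodW w u).length + v.length) ≤ (2 * m + 1) * (L * n + v.length) := 
        Nat.mul_le_mul_left _ (by omega)
      omega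
  refine ⟨?_, key, ?_⟩
  · intro hO hτ n u hu
    apply dia_closed O hO
    have h1 : permW (prodW w u ++ v) = τ * permW v := by
      rw [← hu]
      simp [permW]
    rw [h1]
    exact hτ
  · rintro ⟨k, u, j, hu, hne⟩
    rcases key with h | h
    · exact absurd (by rw [h k u hu]) hne
    · exact h

end Pool.Agent.Results.MP_5f6b43_gt.SubgroupZeroOneLaw
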